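import Pool.Agent.Helper18.NQ.LemmaD

/-!
# The iteration of Lemma D over the windows

`ι` are the nodes, `δ` the places per node, `W` the places of a block, `F` the alphabet, `X` the inputs. `D b e` is the change
of the input at the places `b` by the amounts `e`, and `U x v` are the unread places of the block which belongs to the node
`v` in the run which belongs to `x`. There is one `D` and one `U` for each window `j`.

For nearly all inputs `x ∈ E` there is a decreasing chain of sets of nodes `K 0 ⊇ K 1 ⊇ … ⊇ K J` such that for every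
window `j` many pairs `(b, e)` on `K j` have at least two nonzero amounts exactly at the nodes of `K (j+1)` and lead from
an element of `E` at which all the places `b` are unread to `x`.
-/

set_option autoImplicit false

namespace Pool.Agent.Helper89.NK

open Finset

set_option linter.unusedSectionVars false

section

variable {ι δ W F X : Type} [Fintype ι] [DecidableEq ι] [Fintype δ] [DecidableEq δ] [Fintype W] [DecidableEq W]
  [AddCommGroup F] [Fintype F] [DecidableEq F]

/-- The nodes at which `e` has at least two nonzero amounts. -/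
def supp2 (e : ι → δ → F) : Finset ι := univ.filter fun v => 2 ≤ (univ.filter fun i => e v i ≠ 0).card

theorem mem_supp2 (e : ι → δ → F) (v : ι) : v ∈ supp2 e ↔ 2 ≤ (univ.filter fun i => e v i ≠ 0).card := by
  simp [supp2]

/-- The number of arrows into `x` from `E`: the amounts are zero outside `K0` and have at least two nonzero entries exactly
at the nodes of `K`; the places at the nodes of `K0` are unread. -/
def in2 [AddCommGroup X] [DecidableEq X] (D : (ι → δ → W) → (ι → δ → F) →+ X) (U : X → ι → Finset W) (E : Finset X)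
    (K0 K : Finset ι) (x : X) : ℕ :=
  ((univ : Finset ((ι → δ → W) × (ι → δ → F))).filter fun p => (∀ v, v ∉ K0 → p.2 v = 0) ∧ supp2 p.2 = K ∧
    x - D p.1 p.2 ∈ E ∧ ∀ v ∈ K0, ∀ i, p.1 v i ∈ U (x - D p.1 p.2) v).card

/-- Extension by zero. -/
def ext0 (K0 : Finset ι) : (K0 → δ → F) →+ (ι → δ → F) where
  toFun e v := if h : v ∈ K0 then e ⟨v, h⟩ else 0
  map_zero' := by
    funext v
    by_cases h : v ∈ K0 <;> simp [h]
  map_add' e e' := by
    funext v
    by_cases h : v ∈ K0 <;> simp [h]

theorem ext0_mem (K0 : Finset ι) (e : K0 → δ → F) (v : ι) (h : v ∈ K0) : ext0 K0 e v = e ⟨v, h⟩ := by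
  simp [ext0, h]

theorem ext0_not (K0 : Finset ι) (e : K0 → δ → F) (v : ι) (h : v ∉ K0) : ext0 K0 e v = 0 := by
  simp [ext0, h]

theorem ext0_inj (K0 : Finset ι) : Function.Injective (ext0 K0 : (K0 → δ → F) →+ (ι → δ → F)) := by
  intro e e' h
  funext v
  have := congrFun h v.1
  rwa [ext0_mem K0 e v.1 v.2, ext0_mem K0 e' v.1 v.2] at this

theorem supp2_ext0_sub (K0 : Finset ι) (e : K0 → δ → F) : supp2 (ext0 K0 e) ⊆ K0 := by
  intro v hv
  by_contra h
  rw [mem_supp2, ext0_not K0 e v h] at hv
  simp at hv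

/-- The small amounts on `K0`. -/
def Sm (K0 : Finset ι) (r : ℕ) : Finset (K0 → δ → F) :=
  univ.filter fun e => r * (supp2 e).card < K0.card

theorem card_supp2_ext0 (K0 : Finset ι) (e : K0 → δ → F) : (supp2 (ext0 K0 e)).card = (supp2 e).card := by
  symm
  refine card_bij (fun v _ => v.1) ?_ ?_ ?_
  · intro v hv
    rw [mem_supp2] at hv ⊢
    rw [ext0_mem K0 e v.1 v.2]
    exact hv
  · intro v _ v' _ h
    exact Subtype.ext h
  · intro v hv
    have h := supp2_ext0_sub K0 e hv
    refine ⟨⟨v, h⟩, ?_, rfl⟩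
    rw [mem_supp2] at hv ⊢
    rw [ext0_mem K0 e v h] at hv
    exact hv

end

section

variable {ι δ W F X : Type} [Fintype ι] [DecidableEq ι] [Fintype δ] [DecidableEq δ] [Fintype W] [DecidableEq W]
  [AddCommGroup F] [Fintype F] [DecidableEq F] [AddCommGroup X] [Fintype X] [DecidableEq X]

omit [DecidableEq X] [AddCommGroup X] [Fintype X] [AddCommGroup F] [Fintype F] [DecidableEq F] in
/-- The number of places which are unread at the nodes of `K0`. -/
theorem card_free (U : ι → Finset W) (K0 : Finset ι) (h : ℕ) (hU : ∀ v ∈ K0, h ≤ (U v).card) :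
    h ^ (Fintype.card δ * K0.card) * Fintype.card W ^ (Fintype.card δ * (Fintype.card ι - K0.card)) ≤
      ((univ : Finset (ι → δ → W)).filter fun b => ∀ v ∈ K0, ∀ i, b v i ∈ U v).card := by
  classical
  have h1 : Fintype.piFinset (fun v => Fintype.piFinset fun _ : δ => if v ∈ K0 then U v else univ) ⊆
      (univ : Finset (ι → δ → W)).filter fun b => ∀ v ∈ K0, ∀ i, b v i ∈ U v := by
    intro b hb
    rw [mem_filter]
    refine ⟨mem_univ _, fun v hv i => ?_⟩
    have h2 := Fintype.mem_piFinset.1 (Fintype.mem_piFinset.1 hb v) i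
    rwa [if_pos hv] at h2
  refine le_trans ?_ (card_le_card h1)
  rw [Fintype.card_piFinset]
  have h3 : ∀ v, (Fintype.piFinset fun _ : δ => if v ∈ K0 then U v else univ).card =
      (if v ∈ K0 then (U v).card else Fintype.card W) ^ Fintype.card δ := by
    intro v
    rw [Fintype.card_piFinset, prod_const, card_univ]
    by_cases hv : v ∈ K0 <;> simp [hv]
  rw [prod_congr rfl fun v _ => h3 v, prod_pow]
  have h4 : h ^ K0.card * Fintype.card W ^ (Fintype.card ι - K0.card) ≤
      ∏ v : ι, (if v ∈ K0 then (U v).card else Fintype.card W) := by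
    have h5 : h ^ K0.card * Fintype.card W ^ (Fintype.card ι - K0.card) =
        ∏ v : ι, (if v ∈ K0 then h else Fintype.card W) := by
      rw [prod_ite, prod_const, prod_const]
      congr 2
      · rw [filter_mem_eq_inter, univ_inter]
      · rw [filter_not, filter_mem_eq_inter, univ_inter, ← compl_eq_univ_sdiff, card_compl]
    rw [h5]
    refine prod_le_prod' fun v _ => ?_
    by_cases hv : v ∈ K0
    · rw [if_pos hv, if_pos hv]
      exact hU v hv
    · rw [if_neg hv, if_neg hv]
  calc h ^ (Fintype.card δ * K0.card) * Fintype.card W ^ (Fintype.card δ * (Fintype.card ι - K0.card)) =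
      (h ^ K0.card * Fintype.card W ^ (Fintype.card ι - K0.card)) ^ Fintype.card δ := by
        rw [mul_pow, ← pow_mul, ← pow_mul, mul_comm (Fintype.card δ), mul_comm (Fintype.card δ)]
    _ ≤ _ := Nat.pow_le_pow_left h4 _

/-- The points at which the chain cannot be extended from `K0`. -/
def stuck (D : (ι → δ → W) → (ι → δ → F) →+ X) (U : X → ι → Finset W) (E : Finset X) (K0 : Finset ι) (r R : ℕ) :
    Finset X :=
  E.filter fun x => ∀ K ∈ K0.powerset, K0.card ≤ r * K.card → in2 D U E K0 K x < R

/-- **One step.** -/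
theorem step (D : (ι → δ → W) → (ι → δ → F) →+ X) (U : X → ι → Finset W) (E : Finset X) (K0 : Finset ι)
    (h r R Z : ℕ) (hh : 0 < h) (hW : 0 < Fintype.card W) (hhW : h ≤ Fintype.card W)
    (hU : ∀ x ∈ E, ∀ v ∈ K0, h ≤ (U x v).card)
    (hR : 2 ^ Fintype.card ι * R ≤ h ^ (Fintype.card δ * Fintype.card ι))
    (hZ : 4 * ((Sm (δ := δ) (F := F) K0 r).card + 1) * Fintype.card W ^ (Fintype.card δ * K0.card) * Z ≤
      (h * Fintype.card F) ^ (Fintype.card δ * K0.card)) :
    (stuck D U E K0 r R).card * Z ≤ Fintype.card X := by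
  classical
  set G := stuck D U E K0 r R with hG
  set d := Fintype.card δ with hd
  set n := Fintype.card ι with hn
  set k := K0.card with hk
  set L := Fintype.card W with hL
  set q := Fintype.card F with hq
  have hkn : k ≤ n := card_le_univ K0
  let H := h ^ (d * k) * L ^ (d * (n - k))
  have hHle : h ^ (d * n) ≤ H := by
    calc h ^ (d * n) = h ^ (d * k) * h ^ (d * (n - k)) := by
          rw [← pow_add, ← Nat.mul_add, Nat.add_sub_cancel' hkn]
      _ ≤ _ := Nat.mul_le_mul_left _ (Nat.pow_le_pow_left hhW _)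
  have key := Helper18.NQ.lemmaD (Ω := X) (E := K0 → δ → F) (T := ι → δ → W)
    (fun b e x => x + D b (ext0 K0 e)) (fun b x => by simp) (fun b e e' x => by simp only [map_add]; abel) G
    (fun x b => ∀ v ∈ K0, ∀ i, b v i ∈ U x v) H
    (fun x hx => card_free (fun v => U x v) K0 h (hU x (mem_filter.1 hx).1)) (Sm K0 r) ?_
  · -- the conclusion
    have h1 : Fintype.card (K0 → δ → F) = q ^ (d * k) := by
      rw [Fintype.card_fun, Fintype.card_fun, ← pow_mul, Fintype.card_coe]
    have h2 : Fintype.card (ι → δ → W) = L ^ (d * n) := by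
      rw [Fintype.card_fun, Fintype.card_fun, ← pow_mul]
    rw [h1, h2] at key
    have h3 : L ^ (d * n) = L ^ (d * k) * L ^ (d * (n - k)) := by
      rw [← pow_add, ← Nat.mul_add, Nat.add_sub_cancel' hkn]
    have h4 : G.card * (h * q) ^ (d * k) ≤ 4 * ((Sm (δ := δ) (F := F) K0 r).card + 1) * L ^ (d * k) * Fintype.card X := by
      refine Nat.le_of_mul_le_mul_right ?_ (Nat.pow_pos (n := d * (n - k)) hW)
      calc G.card * (h * q) ^ (d * k) * L ^ (d * (n - k)) = G.card * H * q ^ (d * k) := by
            rw [mul_pow]; ring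
        _ ≤ _ := key
        _ = _ := by rw [h3]; ring
    have hq0 : 0 < q := Fintype.card_pos
    refine Nat.le_of_mul_le_mul_right ?_ (Nat.pow_pos (n := d * k) (Nat.mul_pos hh hq0))
    calc G.card * Z * (h * q) ^ (d * k) = G.card * (h * q) ^ (d * k) * Z := by ring
      _ ≤ 4 * ((Sm (δ := δ) (F := F) K0 r).card + 1) * L ^ (d * k) * Fintype.card X * Z := Nat.mul_le_mul_right _ h4
      _ = 4 * ((Sm (δ := δ) (F := F) K0 r).card + 1) * L ^ (d * k) * Z * Fintype.card X := by ring
      _ ≤ (h * q) ^ (d * k) * Fintype.card X := Nat.mul_le_mul_right _ hZ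
      _ = _ := by ring
  · -- few arrows
    intro x' hx'
    have hx2 := (mem_filter.1 hx').2
    have h1 : ((univ : Finset ((K0 → δ → F) × (ι → δ → W))).filter (fun p => p.1 ∉ Sm K0 r ∧
        x' + D p.2 (ext0 K0 (-p.1)) ∈ G ∧ ∀ v ∈ K0, ∀ i, p.2 v i ∈ U (x' + D p.2 (ext0 K0 (-p.1))) v)).card ≤
        ∑ K ∈ K0.powerset.filter (fun K => k ≤ r * K.card), in2 D U E K0 K x' := by
      rw [card_eq_sum_card_fiberwise (f := fun p => supp2 (ext0 K0 p.1))
        (t := K0.powerset.filter (fun K => k ≤ r * K.card)) ?_]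
      · refine sum_le_sum fun K _ => ?_
        refine card_le_card_of_injOn (fun p => (p.2, ext0 K0 p.1)) ?_ ?_
        · rintro ⟨e, b⟩ hp
          rw [mem_coe, mem_filter, mem_filter] at hp
          obtain ⟨⟨-, -, hG1, hfr⟩, hK⟩ := hp
          rw [mem_coe, mem_filter]
          have h2 : x' + D b (ext0 K0 (-e)) = x' - D b (ext0 K0 e) := by
            rw [map_neg, map_neg, sub_eq_add_neg]
          simp only [h2] at hG1 hfr
          exact ⟨mem_univ _, fun v hv => ext0_not K0 e v hv, hK, (mem_filter.1 hG1).1, hfr⟩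
        · rintro ⟨e, b⟩ _ ⟨e', b'⟩ _ h
          simp only [Prod.mk.injEq] at h
          rw [h.1, ext0_inj K0 h.2]
      · rintro ⟨e, b⟩ hp
        rw [mem_coe, mem_filter] at hp
        obtain ⟨-, hs, -, -⟩ := hp
        simp only [Sm, mem_filter, mem_univ, true_and, not_lt] at hs
        rw [mem_coe, mem_filter, mem_powerset, card_supp2_ext0]
        exact ⟨supp2_ext0_sub K0 e, hs⟩
    refine h1.trans ?_
    calc ∑ K ∈ K0.powerset.filter (fun K => k ≤ r * K.card), in2 D U E K0 K x' ≤
        ∑ K ∈ K0.powerset.filter (fun K => k ≤ r * K.card), R := by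
          refine sum_le_sum fun K hK => ?_
          rw [mem_filter] at hK
          exact (hx2 K hK.1 hK.2).le
      _ = (K0.powerset.filter (fun K => k ≤ r * K.card)).card * R := by rw [sum_const, smul_eq_mul]
      _ ≤ 2 ^ n * R := by
          refine Nat.mul_le_mul_right _ ?_
          calc (K0.powerset.filter (fun K => k ≤ r * K.card)).card ≤ K0.powerset.card := card_filter_le _ _
            _ = 2 ^ k := card_powerset _
            _ ≤ 2 ^ n := Nat.pow_le_pow_right (by norm_num) hkn
      _ ≤ h ^ (d * n) := hR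
      _ ≤ H := hHle

/-- **The chain.** -/
theorem chain (J : ℕ) (D : Fin J → (ι → δ → W) → (ι → δ → F) →+ X) (U : Fin J → X → ι → Finset W) (E : Finset X)
    (V : Finset ι) (h r R Z κ : ℕ) (hh : 0 < h) (hhW : h ≤ Fintype.card W) (hr : 0 < r) (hκ : κ * r ^ J ≤ V.card)
    (hU : ∀ j, ∀ x ∈ E, ∀ v ∈ V, h ≤ (U j x v).card)
    (hR : 2 ^ Fintype.card ι * R ≤ h ^ (Fintype.card δ * Fintype.card ι))
    (hZ : ∀ K0 : Finset ι, K0 ⊆ V → κ ≤ K0.card →
      4 * ((Sm (δ := δ) (F := F) K0 r).card + 1) * Fintype.card W ^ (Fintype.card δ * K0.card) * Z ≤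
      (h * Fintype.card F) ^ (Fintype.card δ * K0.card)) :
    ∃ Bad : Finset X, Bad.card * Z ≤ J * 2 ^ Fintype.card ι * Fintype.card X ∧ ∀ x ∈ E, x ∉ Bad →
      ∃ K : Fin (J + 1) → Finset ι, K 0 = V ∧ κ ≤ (K (Fin.last J)).card ∧ ∀ j : Fin J,
        K j.succ ⊆ K j.castSucc ∧ (K j.castSucc).card ≤ r * (K j.succ).card ∧
        R ≤ in2 (D j) (U j) E (K j.castSucc) (K j.succ) x := by
  classical
  let Ks : Finset (Finset ι) := V.powerset.filter fun K0 => κ ≤ K0.card
  let Bad : Finset X := ((univ : Finset (Fin J)) ×ˢ Ks).biUnion fun p => stuck (D p.1) (U p.1) E p.2 r R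
  refine ⟨Bad, ?_, ?_⟩
  · calc Bad.card * Z ≤ (∑ p ∈ (univ : Finset (Fin J)) ×ˢ Ks, (stuck (D p.1) (U p.1) E p.2 r R).card) * Z :=
        Nat.mul_le_mul_right _ card_biUnion_le
      _ = ∑ p ∈ (univ : Finset (Fin J)) ×ˢ Ks, (stuck (D p.1) (U p.1) E p.2 r R).card * Z := by rw [sum_mul]
      _ ≤ ∑ _p ∈ (univ : Finset (Fin J)) ×ˢ Ks, Fintype.card X := by
          refine sum_le_sum fun p hp => ?_
          rw [mem_product, mem_filter, mem_powerset] at hp
          exact step (D p.1) (U p.1) E p.2 h r R Z hh (lt_of_lt_of_le hh hhW) hhW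
            (fun x hx v hv => hU p.1 x hx v (hp.2.1 hv)) hR (hZ p.2 hp.2.1 hp.2.2)
      _ = (J * Ks.card) * Fintype.card X := by
          rw [sum_const, smul_eq_mul, card_product, card_univ, Fintype.card_fin]
      _ ≤ J * 2 ^ Fintype.card ι * Fintype.card X := by
          refine Nat.mul_le_mul_right _ (Nat.mul_le_mul_left _ ?_)
          calc Ks.card ≤ V.powerset.card := card_filter_le _ _
            _ = 2 ^ V.card := card_powerset _
            _ ≤ _ := Nat.pow_le_pow_right (by norm_num) (card_le_univ V)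
  · intro x hx hxB
    -- one step of the chain
    have hstep : ∀ (j : Fin J) (K0 : Finset ι), K0 ⊆ V → κ ≤ K0.card → ∃ K ⊆ K0, K0.card ≤ r * K.card ∧
        R ≤ in2 (D j) (U j) E K0 K x := by
      intro j K0 hK0 hκ0
      by_contra hno
      push Not at hno
      refine hxB ?_
      rw [mem_biUnion]
      refine ⟨(j, K0), ?_, ?_⟩
      · rw [mem_product, mem_filter, mem_powerset]
        exact ⟨mem_univ _, hK0, hκ0⟩
      · simp only [stuck, mem_filter, mem_powerset]
        exact ⟨hx, fun K hK hc => hno K hK hc⟩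
    -- the chain up to `j`
    have hall : ∀ m : ℕ, m ≤ J → ∃ K : ℕ → Finset ι, K 0 = V ∧ K m ⊆ V ∧ V.card ≤ r ^ m * (K m).card ∧
        ∀ j : Fin J, j.1 < m → K (j.1 + 1) ⊆ K j.1 ∧ (K j.1).card ≤ r * (K (j.1 + 1)).card ∧
          R ≤ in2 (D j) (U j) E (K j.1) (K (j.1 + 1)) x := by
      intro m
      induction m with
      | zero =>
        intro _
        exact ⟨fun _ => V, rfl, Subset.rfl, by simp, fun j hj => absurd hj (Nat.not_lt_zero _)⟩
      | succ m ih =>
        intro hm
        obtain ⟨K, hK0, hKV, hKc, hK⟩ := ih (by omega)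
        have hκm : κ ≤ (K m).card := by
          have h1 : r ^ J = r ^ m * r ^ (J - m) := by rw [← pow_add, Nat.add_sub_cancel' (by omega)]
          have h2 : κ * r ^ m ≤ κ * r ^ J := Nat.mul_le_mul_left _ (Nat.pow_le_pow_right hr (by omega))
          have h3 : r ^ m * κ ≤ r ^ m * (K m).card := by
            rw [mul_comm (r ^ m) κ]
            exact h2.trans (hκ.trans hKc)
          exact Nat.le_of_mul_le_mul_left h3 (Nat.pow_pos hr)
        obtain ⟨K', hK'1, hK'2, hK'3⟩ := hstep ⟨m, by omega⟩ (K m) hKV hκm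
        refine ⟨fun i => if i ≤ m then K i else K', ?_, ?_, ?_, ?_⟩
        · simp [hK0]
        · simp only [Nat.not_succ_le_self, if_false]
          exact hK'1.trans hKV
        · simp only [Nat.not_succ_le_self, if_false]
          calc V.card ≤ r ^ m * (K m).card := hKc
            _ ≤ r ^ m * (r * K'.card) := Nat.mul_le_mul_left _ hK'2
            _ = _ := by rw [pow_succ]; ring
        · intro j hj
          rcases Nat.lt_succ_iff_lt_or_eq.1 hj with hj | hj
          · simp only [if_pos (show j.1 + 1 ≤ m by omega), if_pos (show j.1 ≤ m by omega)]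
            exact hK j hj
          · have hmJ : m < J := by omega
            have hjm : j = ⟨m, hmJ⟩ := Fin.ext hj
            clear hj
            rw [hjm]
            simp only [Nat.not_succ_le_self, if_false, le_refl, if_true]
            exact ⟨hK'1, hK'2, hK'3⟩
    obtain ⟨K, hK0, -, hKc, hK⟩ := hall J le_rfl
    refine ⟨fun i => K i.1, hK0, ?_, fun j => ?_⟩
    · have h3 : r ^ J * κ ≤ r ^ J * (K J).card := by
        rw [mul_comm (r ^ J) κ]
        exact hκ.trans hKc
      exact Nat.le_of_mul_le_mul_left h3 (Nat.pow_pos hr)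
    · have := hK j j.2
      simpa using this

end

end Pool.Agent.Helper89.NK
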