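import Pool.Agent.Helper89.NK.Num

/-!
# The iteration of Lemma D over the windows, with given sizes

As `Chain.lean`, with numbers `κ 0, κ 1, …` as lower bounds for the sizes of the sets in the chain.
-/

set_option autoImplicit false
set_option linter.unusedSectionVars false

namespace Pool.Agent.Helper89.NK

open Finset

section

variable {ι δ W F X : Type} [Fintype ι] [DecidableEq ι] [Fintype δ] [DecidableEq δ] [Fintype W] [DecidableEq W]
  [AddCommGroup F] [Fintype F] [DecidableEq F]

/-- The small amounts on `K0`: fewer than `m0` nodes with two changes. -/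
def SmK (K0 : Finset ι) (m0 : ℕ) : Finset (K0 → δ → F) :=
  univ.filter fun e => (supp2 e).card < m0

/-- The small amounts are few. -/
theorem card_SmK (K0 : Finset ι) (m0 : ℕ) :
    (SmK (δ := δ) (F := F) K0 m0).card ≤
      (2 * (1 + Fintype.card δ * Fintype.card F)) ^ K0.card * Fintype.card F ^ (Fintype.card δ * m0) := by
  classical
  set d := Fintype.card δ with hd'
  set q := Fintype.card F with hq
  set k := K0.card with hk
  have hq0 : 0 < q := Fintype.card_pos
  let Few : Finset (δ → F) := univ.filter fun f => (univ.filter fun i => f i ≠ 0).card ≤ 1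
  let Big : Finset (Finset K0) := univ.filter fun S => S.card < m0
  have h1 : SmK (δ := δ) (F := F) K0 m0 ⊆ Big.biUnion fun S =>
      Fintype.piFinset fun v => if v ∈ S then univ else Few := by
    intro e he
    simp only [SmK, mem_filter, mem_univ, true_and] at he
    rw [mem_biUnion]
    refine ⟨supp2 e, ?_, ?_⟩
    · simp only [Big, mem_filter, mem_univ, true_and]
      exact he
    · rw [Fintype.mem_piFinset]
      intro v
      by_cases hv : v ∈ supp2 e
      · rw [if_pos hv]
        exact mem_univ _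
      · rw [if_neg hv]
        rw [mem_supp2, not_le] at hv
        simp only [Few, mem_filter, mem_univ, true_and]
        omega
  have h2 : ∀ S ∈ Big, (Fintype.piFinset fun v => if v ∈ S then (univ : Finset (δ → F)) else Few).card ≤
      (1 + d * q) ^ k * q ^ (d * m0) := by
    intro S hS
    simp only [Big, mem_filter, mem_univ, true_and] at hS
    rw [Fintype.card_piFinset]
    have h3 : ∀ v : K0, (if v ∈ S then (univ : Finset (δ → F)) else Few).card ≤
        (1 + d * q) * (if v ∈ S then q ^ d else 1) := by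
      intro v
      by_cases hv : v ∈ S
      · rw [if_pos hv, if_pos hv, card_univ, Fintype.card_fun]
        exact Nat.le_mul_of_pos_left _ (by omega)
      · rw [if_neg hv, if_neg hv, mul_one]
        exact card_few
    calc ∏ v : K0, (if v ∈ S then (univ : Finset (δ → F)) else Few).card ≤
        ∏ v : K0, (1 + d * q) * (if v ∈ S then q ^ d else 1) := prod_le_prod' fun v _ => h3 v
      _ = (1 + d * q) ^ k * (q ^ d) ^ S.card := by
          rw [prod_mul_distrib, prod_const, card_univ, Fintype.card_coe, prod_ite, prod_const, prod_const, one_pow,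
            mul_one, filter_mem_eq_inter, univ_inter]
      _ ≤ (1 + d * q) ^ k * q ^ (d * m0) := by
          refine Nat.mul_le_mul_left _ ?_
          rw [← pow_mul]
          exact Nat.pow_le_pow_right hq0 (Nat.mul_le_mul_left _ hS.le)
  calc (SmK (δ := δ) (F := F) K0 m0).card ≤ ∑ S ∈ Big, (Fintype.piFinset fun v => if v ∈ S then
        (univ : Finset (δ → F)) else Few).card := (card_le_card h1).trans card_biUnion_le
    _ ≤ ∑ _S ∈ Big, (1 + d * q) ^ k * q ^ (d * m0) := sum_le_sum h2
    _ = Big.card * ((1 + d * q) ^ k * q ^ (d * m0)) := by rw [sum_const, smul_eq_mul]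
    _ ≤ 2 ^ k * ((1 + d * q) ^ k * q ^ (d * m0)) := by
        refine Nat.mul_le_mul_right _ ?_
        calc Big.card ≤ (univ : Finset (Finset K0)).card := card_filter_le _ _
          _ = 2 ^ k := by rw [card_univ, Fintype.card_finset, Fintype.card_coe]
    _ = _ := by rw [mul_pow]; ring

variable [AddCommGroup X] [Fintype X] [DecidableEq X]

/-- The points at which the chain cannot be extended from `K0` to a set of at least `m0` nodes. -/
def stuckK (D : (ι → δ → W) → (ι → δ → F) →+ X) (U : X → ι → Finset W) (E : Finset X) (K0 : Finset ι) (h m0 : ℕ) :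
    Finset X :=
  E.filter fun x => ∀ K ∈ K0.powerset, m0 ≤ K.card →
    2 ^ Fintype.card ι * in2 D U E K0 K x < h ^ (Fintype.card δ * Fintype.card ι)

/-- **One step.** -/
theorem stepK (D : (ι → δ → W) → (ι → δ → F) →+ X) (U : X → ι → Finset W) (E : Finset X) (K0 : Finset ι)
    (h m0 : ℕ) (hW : 0 < Fintype.card W) (hhW : h ≤ Fintype.card W)
    (hU : ∀ x ∈ E, ∀ v ∈ K0, h ≤ (U x v).card) :
    (stuckK D U E K0 h m0).card * (h * Fintype.card F) ^ (Fintype.card δ * K0.card) ≤
      4 * ((SmK (δ := δ) (F := F) K0 m0).card + 1) * Fintype.card W ^ (Fintype.card δ * K0.card) * Fintype.card X := by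
  classical
  set G := stuckK D U E K0 h m0 with hG
  set d := Fintype.card δ with hd
  set n := Fintype.card ι with hn
  set k := K0.card with hk
  set L := Fintype.card W with hL
  set q := Fintype.card F with hq
  have hkn : k ≤ n := card_le_univ K0
  let H := h ^ (d * k) * L ^ (d * (n - k))
  have hHle : h ^ (d * n) ≤ H := by
    calc h ^ (d * n) = h ^ (d * k) * h ^ (d * (n - k)) := by
          rw [← pow_add, ← Nat.mul_add, Nat.add_sub_cancel' hkn]
      _ ≤ _ := Nat.mul_le_mul_left _ (Nat.pow_le_pow_left hhW _)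
  have key := Helper18.NQ.lemmaD (Ω := X) (E := K0 → δ → F) (T := ι → δ → W)
    (fun b e x => x + D b (ext0 K0 e)) (fun b x => by simp) (fun b e e' x => by simp only [map_add]; abel) G
    (fun x b => ∀ v ∈ K0, ∀ i, b v i ∈ U x v) H
    (fun x hx => card_free (fun v => U x v) K0 h (hU x (mem_filter.1 hx).1)) (SmK K0 m0) ?_
  · -- the conclusion
    have h1 : Fintype.card (K0 → δ → F) = q ^ (d * k) := by
      rw [Fintype.card_fun, Fintype.card_fun, ← pow_mul, Fintype.card_coe]
    have h2 : Fintype.card (ι → δ → W) = L ^ (d * n) := by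
      rw [Fintype.card_fun, Fintype.card_fun, ← pow_mul]
    rw [h1, h2] at key
    have h3 : L ^ (d * n) = L ^ (d * k) * L ^ (d * (n - k)) := by
      rw [← pow_add, ← Nat.mul_add, Nat.add_sub_cancel' hkn]
    refine Nat.le_of_mul_le_mul_right ?_ (Nat.pow_pos (n := d * (n - k)) hW)
    calc G.card * (h * q) ^ (d * k) * L ^ (d * (n - k)) = G.card * H * q ^ (d * k) := by
          rw [mul_pow]; ring
      _ ≤ _ := key
      _ = _ := by rw [h3]; ring
  · -- few arrows
    intro x' hx'
    have hx2 := (mem_filter.1 hx').2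
    have h1 : ((univ : Finset ((K0 → δ → F) × (ι → δ → W))).filter (fun p => p.1 ∉ SmK K0 m0 ∧
        x' + D p.2 (ext0 K0 (-p.1)) ∈ G ∧ ∀ v ∈ K0, ∀ i, p.2 v i ∈ U (x' + D p.2 (ext0 K0 (-p.1))) v)).card ≤
        ∑ K ∈ K0.powerset.filter (fun K => m0 ≤ K.card), in2 D U E K0 K x' := by
      rw [card_eq_sum_card_fiberwise (f := fun p => supp2 (ext0 K0 p.1))
        (t := K0.powerset.filter (fun K => m0 ≤ K.card)) ?_]
      · refine sum_le_sum fun K _ => ?_
        refine card_le_card_of_injOn (fun p => (p.2, ext0 K0 p.1)) ?_ ?_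
        · rintro ⟨e, b⟩ hp
          rw [mem_coe, mem_filter, mem_filter] at hp
          obtain ⟨⟨-, -, hG1, hfr⟩, hK⟩ := hp
          rw [mem_coe, mem_filter]
          have h2 : x' + D b (ext0 K0 (-e)) = x' - D b (ext0 K0 e) := by
            rw [map_neg, map_neg, sub_eq_add_neg]
          simp only [h2] at hG1 hfr
          exact ⟨mem_univ _, fun v hv => ext0_not K0 e v hv, hK, (mem_filter.1 hG1).1, hfr⟩
        · rintro ⟨e, b⟩ _ ⟨e', b'⟩ _ h
          simp only [Prod.mk.injEq] at h
          rw [h.1, ext0_inj K0 h.2]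
      · rintro ⟨e, b⟩ hp
        rw [mem_coe, mem_filter] at hp
        obtain ⟨-, hs, -, -⟩ := hp
        simp only [SmK, mem_filter, mem_univ, true_and, not_lt] at hs
        rw [mem_coe, mem_filter, mem_powerset, card_supp2_ext0]
        exact ⟨supp2_ext0_sub K0 e, hs⟩
    refine h1.trans (le_trans ?_ hHle)
    refine Nat.le_of_mul_le_mul_left ?_ (Nat.pow_pos (n := n) (show 0 < 2 by norm_num))
    rw [mul_sum]
    calc ∑ K ∈ K0.powerset.filter (fun K => m0 ≤ K.card), 2 ^ n * in2 D U E K0 K x' ≤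
        ∑ K ∈ K0.powerset.filter (fun K => m0 ≤ K.card), h ^ (d * n) := by
          refine sum_le_sum fun K hK => ?_
          rw [mem_filter] at hK
          exact (hx2 K hK.1 hK.2).le
      _ = (K0.powerset.filter (fun K => m0 ≤ K.card)).card * h ^ (d * n) := by rw [sum_const, smul_eq_mul]
      _ ≤ 2 ^ n * h ^ (d * n) := by
          refine Nat.mul_le_mul_right _ ?_
          calc (K0.powerset.filter (fun K => m0 ≤ K.card)).card ≤ K0.powerset.card := card_filter_le _ _
            _ = 2 ^ k := card_powerset _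
            _ ≤ 2 ^ n := Nat.pow_le_pow_right (by norm_num) hkn

/-- One step, as a part of all inputs. -/
theorem stepK_real (D : (ι → δ → W) → (ι → δ → F) →+ X) (U : X → ι → Finset W) (E : Finset X) (K0 : Finset ι)
    (h m0 k0 : ℕ) (hh : 0 < h) (hhW : h ≤ Fintype.card W) (hU : ∀ x ∈ E, ∀ v ∈ K0, h ≤ (U x v).card)
    (hk0 : k0 ≤ K0.card) {r β : ℝ} (hr : r = (h : ℝ) / Fintype.card W) (hqr : 1 ≤ Fintype.card F * r)
    (hβ : 8 * (2 * (1 + Fintype.card δ * Fintype.card F)) ^ Fintype.card ι *
      (Fintype.card F : ℝ) ^ (Fintype.card δ * m0) / (Fintype.card F * r) ^ (Fintype.card δ * k0) ≤ β) :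
    ((stuckK D U E K0 h m0).card : ℝ) ≤ β * Fintype.card X := by
  have hW : 0 < Fintype.card W := lt_of_lt_of_le hh hhW
  have h1 := stepK D U E K0 h m0 hW hhW hU
  have h2 := card_SmK (δ := δ) (F := F) K0 m0
  set G := (stuckK D U E K0 h m0).card with hG
  set s := (SmK (δ := δ) (F := F) K0 m0).card with hs
  set d := Fintype.card δ with hd
  set n := Fintype.card ι with hn
  set k := K0.card with hk
  set L := Fintype.card W with hL
  set q := Fintype.card F with hq
  have hkn : k ≤ n := card_le_univ K0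
  have hq0 : 0 < q := Fintype.card_pos
  have h3 : 4 * (s + 1) ≤ 8 * ((2 * (1 + d * q)) ^ n * q ^ (d * m0)) := by
    have h4 : s ≤ (2 * (1 + d * q)) ^ n * q ^ (d * m0) :=
      h2.trans (Nat.mul_le_mul_right _ (Nat.pow_le_pow_right (by omega) hkn))
    have h5 : 1 ≤ (2 * (1 + d * q)) ^ n * q ^ (d * m0) :=
      Nat.mul_pos (Nat.pow_pos (by omega)) (Nat.pow_pos hq0)
    omega
  have h6 : G * (h * q) ^ (d * k) ≤ 8 * ((2 * (1 + d * q)) ^ n * q ^ (d * m0)) * L ^ (d * k) * Fintype.card X :=
    h1.trans (Nat.mul_le_mul_right _ (Nat.mul_le_mul_right _ h3))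
  have h7 : (G : ℝ) * ((h : ℝ) * q) ^ (d * k) ≤
      8 * ((2 * (1 + d * q)) ^ n * (q : ℝ) ^ (d * m0)) * (L : ℝ) ^ (d * k) * Fintype.card X := by
    have := (Nat.cast_le (α := ℝ)).2 h6
    push_cast at this
    exact this
  have hLr : (0 : ℝ) < L := by exact_mod_cast hW
  have hhq : (h : ℝ) * q = (q * r) * L := by
    rw [hr]; field_simp
  rw [hhq, mul_pow] at h7
  have hLk : (0 : ℝ) < (L : ℝ) ^ (d * k) := pow_pos hLr _
  have h8 : (G : ℝ) * (q * r) ^ (d * k) ≤ 8 * ((2 * (1 + d * q)) ^ n * (q : ℝ) ^ (d * m0)) * Fintype.card X := by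
    refine le_of_mul_le_mul_right ?_ hLk
    calc (G : ℝ) * (q * r) ^ (d * k) * (L : ℝ) ^ (d * k) = (G : ℝ) * ((q * r) ^ (d * k) * (L : ℝ) ^ (d * k)) := by ring
      _ ≤ _ := h7
      _ = _ := by ring
  have hpos : (0 : ℝ) < (q * r) ^ (d * k0) := pow_pos (lt_of_lt_of_le one_pos hqr) _
  have h9 : (G : ℝ) * (q * r) ^ (d * k0) ≤ 8 * ((2 * (1 + d * q)) ^ n * (q : ℝ) ^ (d * m0)) * Fintype.card X := by
    refine le_trans (mul_le_mul_of_nonneg_left ?_ (Nat.cast_nonneg _)) h8
    exact pow_le_pow_right₀ hqr (Nat.mul_le_mul_left _ hk0)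
  calc (G : ℝ) = (G : ℝ) * (q * r) ^ (d * k0) / (q * r) ^ (d * k0) := by field_simp
    _ ≤ 8 * ((2 * (1 + d * q)) ^ n * (q : ℝ) ^ (d * m0)) * Fintype.card X / (q * r) ^ (d * k0) :=
        div_le_div_of_nonneg_right h9 hpos.le
    _ = (8 * (2 * (1 + d * q)) ^ n * (q : ℝ) ^ (d * m0) / (q * r) ^ (d * k0)) * Fintype.card X := by ring
    _ ≤ β * Fintype.card X := mul_le_mul_of_nonneg_right hβ (Nat.cast_nonneg _)

/-- **The chain with given sizes.** -/
theorem chainK (J : ℕ) (D : Fin J → (ι → δ → W) → (ι → δ → F) →+ X) (U : Fin J → X → ι → Finset W) (E : Finset X)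
    (V : Finset ι) (h : ℕ) (hh : 0 < h) (hhW : h ≤ Fintype.card W) (κ : ℕ → ℕ) (hκ : κ 0 ≤ V.card)
    (hU : ∀ j, ∀ x ∈ E, ∀ v ∈ V, h ≤ (U j x v).card) {r β : ℝ} (hr : r = (h : ℝ) / Fintype.card W)
    (hqr : 1 ≤ Fintype.card F * r)
    (hβ : ∀ l < J, 8 * (2 * (1 + Fintype.card δ * Fintype.card F)) ^ Fintype.card ι *
      (Fintype.card F : ℝ) ^ (Fintype.card δ * κ (l + 1)) / (Fintype.card F * r) ^ (Fintype.card δ * κ l) ≤ β) :
    ∃ Bad : Finset X, (Bad.card : ℝ) ≤ J * 2 ^ Fintype.card ι * β * Fintype.card X ∧ ∀ x ∈ E, x ∉ Bad →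
      ∃ K : Fin (J + 1) → Finset ι, K 0 = V ∧ (∀ j, κ j.1 ≤ (K j).card) ∧ ∀ j : Fin J,
        K j.succ ⊆ K j.castSucc ∧ h ^ (Fintype.card δ * Fintype.card ι) ≤
          2 ^ Fintype.card ι * in2 (D j) (U j) E (K j.castSucc) (K j.succ) x := by
  classical
  let Ks : Fin J → Finset (Finset ι) := fun j => V.powerset.filter fun K0 => κ j.1 ≤ K0.card
  let Bad : Finset X := (univ : Finset (Fin J)).biUnion fun j => (Ks j).biUnion fun K0 =>
    stuckK (D j) (U j) E K0 h (κ (j.1 + 1))
  have hβ0 : 0 < J → 0 ≤ β := by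
    intro hJ
    refine le_trans ?_ (hβ 0 hJ)
    have : (0 : ℝ) < Fintype.card F * r := lt_of_lt_of_le one_pos hqr
    positivity
  refine ⟨Bad, ?_, ?_⟩
  · have h1 : Bad.card ≤ ∑ j : Fin J, ∑ K0 ∈ Ks j, (stuckK (D j) (U j) E K0 h (κ (j.1 + 1))).card :=
      card_biUnion_le.trans (sum_le_sum fun j _ => card_biUnion_le)
    calc (Bad.card : ℝ) ≤ ∑ j : Fin J, ∑ K0 ∈ Ks j, ((stuckK (D j) (U j) E K0 h (κ (j.1 + 1))).card : ℝ) := by
          exact_mod_cast h1
      _ ≤ ∑ j : Fin J, ∑ _K0 ∈ Ks j, β * Fintype.card X := by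
          refine sum_le_sum fun j _ => sum_le_sum fun K0 hK0 => ?_
          rw [mem_filter, mem_powerset] at hK0
          exact stepK_real (D j) (U j) E K0 h _ (κ j.1) hh hhW (fun x hx v hv => hU j x hx v (hK0.1 hv)) hK0.2 hr hqr
            (hβ j.1 j.2)
      _ ≤ ∑ _j : Fin J, 2 ^ Fintype.card ι * (β * Fintype.card X) := by
          refine sum_le_sum fun j _ => ?_
          rw [sum_const, nsmul_eq_mul]
          refine mul_le_mul_of_nonneg_right ?_ (mul_nonneg (hβ0 (Nat.lt_of_le_of_lt (Nat.zero_le _) j.2))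
            (Nat.cast_nonneg _))
          have h2 : (Ks j).card ≤ 2 ^ Fintype.card ι := by
            calc (Ks j).card ≤ V.powerset.card := card_filter_le _ _
              _ = 2 ^ V.card := card_powerset _
              _ ≤ _ := Nat.pow_le_pow_right (by norm_num) (card_le_univ V)
          exact_mod_cast h2
      _ = _ := by
          rw [sum_const, card_univ, Fintype.card_fin, nsmul_eq_mul]
          ring
  · intro x hx hxB
    -- one step of the chain
    have hstep : ∀ (j : Fin J) (K0 : Finset ι), K0 ⊆ V → κ j.1 ≤ K0.card → ∃ K ⊆ K0, κ (j.1 + 1) ≤ K.card ∧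
        h ^ (Fintype.card δ * Fintype.card ι) ≤ 2 ^ Fintype.card ι * in2 (D j) (U j) E K0 K x := by
      intro j K0 hK0 hκ0
      by_contra hno
      push Not at hno
      refine hxB ?_
      rw [mem_biUnion]
      refine ⟨j, mem_univ _, ?_⟩
      rw [mem_biUnion]
      refine ⟨K0, ?_, ?_⟩
      · rw [mem_filter, mem_powerset]
        exact ⟨hK0, hκ0⟩
      · simp only [stuckK, mem_filter, mem_powerset]
        exact ⟨hx, fun K hK hc => hno K hK hc⟩
    -- the chain up to `m`
    have hall : ∀ m : ℕ, m ≤ J → ∃ K : ℕ → Finset ι, K 0 = V ∧ (∀ j ≤ m, K j ⊆ V ∧ κ j ≤ (K j).card) ∧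
        ∀ j : Fin J, j.1 < m → K (j.1 + 1) ⊆ K j.1 ∧ h ^ (Fintype.card δ * Fintype.card ι) ≤
          2 ^ Fintype.card ι * in2 (D j) (U j) E (K j.1) (K (j.1 + 1)) x := by
      intro m
      induction m with
      | zero =>
        intro _
        refine ⟨fun _ => V, rfl, fun j hj => ?_, fun j hj => absurd hj (Nat.not_lt_zero _)⟩
        have : j = 0 := by omega
        subst this
        exact ⟨Subset.rfl, hκ⟩
      | succ m ih =>
        intro hm
        obtain ⟨K, hK0, hKV, hK⟩ := ih (by omega)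
        obtain ⟨K', hK'1, hK'2, hK'3⟩ := hstep ⟨m, by omega⟩ (K m) (hKV m le_rfl).1 (hKV m le_rfl).2
        refine ⟨fun i => if i ≤ m then K i else K', ?_, ?_, ?_⟩
        · simp [hK0]
        · intro j hj
          by_cases h1 : j ≤ m
          · simp only [if_pos h1]
            exact hKV j h1
          · have h2 : j = m + 1 := by omega
            subst h2
            simp only [if_neg h1]
            exact ⟨hK'1.trans (hKV m le_rfl).1, hK'2⟩
        · intro j hj
          rcases Nat.lt_succ_iff_lt_or_eq.1 hj with hj | hj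
          · simp only [if_pos (show j.1 + 1 ≤ m by omega), if_pos (show j.1 ≤ m by omega)]
            exact hK j hj
          · have hmJ : m < J := by omega
            have hjm : j = ⟨m, hmJ⟩ := Fin.ext hj
            clear hj
            rw [hjm]
            simp only [Nat.not_succ_le_self, if_false, le_refl, if_true]
            exact ⟨hK'1, hK'3⟩
    obtain ⟨K, hK0, hKV, hK⟩ := hall J le_rfl
    refine ⟨fun i => K i.1, hK0, fun j => (hKV j.1 (Nat.lt_succ_iff.1 j.2)).2, fun j => ?_⟩
    have := hK j j.2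
    simpa using this

end

end Pool.Agent.Helper89.NK
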