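import Pool.Agent.Helper89.NK.Chain

/-!
# The numbers of the chain
-/

set_option autoImplicit false
set_option linter.unusedSectionVars false

namespace Pool.Agent.Helper89.NK

open Finset

section

variable {ι δ F : Type} [Fintype ι] [DecidableEq ι] [Fintype δ] [DecidableEq δ]
  [AddCommGroup F] [Fintype F] [DecidableEq F]

/-- Few functions have at most one nonzero value. -/
theorem card_few : ((univ : Finset (δ → F)).filter fun f => (univ.filter fun i => f i ≠ 0).card ≤ 1).card ≤
    1 + Fintype.card δ * Fintype.card F := by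
  classical
  have h1 : ((univ : Finset (δ → F)).filter fun f => (univ.filter fun i => f i ≠ 0).card ≤ 1) ⊆
      (univ : Finset (Option (δ × F))).image fun o => o.elim 0 fun p => Pi.single p.1 p.2 := by
    intro f hf
    rw [mem_filter] at hf
    have hf2 := hf.2
    rw [mem_image]
    rcases (univ.filter fun i => f i ≠ 0).eq_empty_or_nonempty with h | ⟨i, hi⟩
    · refine ⟨none, mem_univ _, ?_⟩
      funext i
      by_contra hne
      have : i ∈ (univ.filter fun i => f i ≠ 0) := by
        rw [mem_filter]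
        exact ⟨mem_univ _, fun h0 => hne (by simp [h0])⟩
      rw [h] at this
      exact absurd this (notMem_empty _)
    · refine ⟨some (i, f i), mem_univ _, ?_⟩
      funext j
      by_cases hj : j = i
      · subst hj
        simp
      · have h0 : f j = 0 := by
          by_contra hne
          have hj' : j ∈ (univ.filter fun i => f i ≠ 0) := by
            rw [mem_filter]
            exact ⟨mem_univ _, hne⟩
          exact hj (card_le_one.1 hf2 j hj' i hi)
        simp [hj, h0]
  calc _ ≤ ((univ : Finset (Option (δ × F))).image fun o => o.elim (0 : δ → F) fun p => Pi.single p.1 p.2).card :=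
        card_le_card h1
    _ ≤ (univ : Finset (Option (δ × F))).card := card_image_le
    _ = 1 + Fintype.card δ * Fintype.card F := by
        rw [card_univ, Fintype.card_option, Fintype.card_prod, add_comm]

/-- **The small amounts are few.** -/
theorem card_Sm (K0 : Finset ι) (r D' : ℕ) (hr : 0 < r) (hd : Fintype.card δ = r * D') :
    (Sm (δ := δ) (F := F) K0 r).card ≤
      (2 * (1 + Fintype.card δ * Fintype.card F)) ^ K0.card * Fintype.card F ^ (D' * K0.card) := by
  classical
  set d := Fintype.card δ with hd'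
  set q := Fintype.card F with hq
  set k := K0.card with hk
  have hq0 : 0 < q := Fintype.card_pos
  let Few : Finset (δ → F) := univ.filter fun f => (univ.filter fun i => f i ≠ 0).card ≤ 1
  let Big : Finset (Finset K0) := univ.filter fun S => r * S.card < k
  have h1 : Sm (δ := δ) (F := F) K0 r ⊆ Big.biUnion fun S =>
      Fintype.piFinset fun v => if v ∈ S then univ else Few := by
    intro e he
    simp only [Sm, mem_filter, mem_univ, true_and] at he
    rw [mem_biUnion]
    refine ⟨supp2 e, ?_, ?_⟩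
    · simp only [Big, mem_filter, mem_univ, true_and]
      exact he
    · rw [Fintype.mem_piFinset]
      intro v
      by_cases hv : v ∈ supp2 e
      · rw [if_pos hv]
        exact mem_univ _
      · rw [if_neg hv]
        rw [mem_supp2, not_le] at hv
        simp only [Few, mem_filter, mem_univ, true_and]
        omega
  have h2 : ∀ S ∈ Big, (Fintype.piFinset fun v => if v ∈ S then (univ : Finset (δ → F)) else Few).card ≤
      (1 + d * q) ^ k * q ^ (D' * k) := by
    intro S hS
    simp only [Big, mem_filter, mem_univ, true_and] at hS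
    rw [Fintype.card_piFinset]
    have h3 : ∀ v : K0, (if v ∈ S then (univ : Finset (δ → F)) else Few).card ≤
        (1 + d * q) * (if v ∈ S then q ^ d else 1) := by
      intro v
      by_cases hv : v ∈ S
      · rw [if_pos hv, if_pos hv, card_univ, Fintype.card_fun]
        exact Nat.le_mul_of_pos_left _ (by omega)
      · rw [if_neg hv, if_neg hv, mul_one]
        exact card_few
    calc ∏ v : K0, (if v ∈ S then (univ : Finset (δ → F)) else Few).card ≤
        ∏ v : K0, (1 + d * q) * (if v ∈ S then q ^ d else 1) := prod_le_prod' fun v _ => h3 v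
      _ = (1 + d * q) ^ k * (q ^ d) ^ S.card := by
          rw [prod_mul_distrib, prod_const, card_univ, Fintype.card_coe, prod_ite, prod_const, prod_const, one_pow,
            mul_one, filter_mem_eq_inter, univ_inter]
      _ ≤ (1 + d * q) ^ k * q ^ (D' * k) := by
          refine Nat.mul_le_mul_left _ ?_
          rw [← pow_mul]
          refine Nat.pow_le_pow_right hq0 ?_
          calc d * S.card = D' * (r * S.card) := by rw [hd]; ring
            _ ≤ D' * k := Nat.mul_le_mul_left _ hS.le
  calc (Sm (δ := δ) (F := F) K0 r).card ≤ ∑ S ∈ Big, (Fintype.piFinset fun v => if v ∈ S then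
        (univ : Finset (δ → F)) else Few).card := (card_le_card h1).trans card_biUnion_le
    _ ≤ ∑ _S ∈ Big, (1 + d * q) ^ k * q ^ (D' * k) := sum_le_sum h2
    _ = Big.card * ((1 + d * q) ^ k * q ^ (D' * k)) := by rw [sum_const, smul_eq_mul]
    _ ≤ 2 ^ k * ((1 + d * q) ^ k * q ^ (D' * k)) := by
        refine Nat.mul_le_mul_right _ ?_
        calc Big.card ≤ (univ : Finset (Finset K0)).card := card_filter_le _ _
          _ = 2 ^ k := by rw [card_univ, Fintype.card_finset, Fintype.card_coe]
    _ = _ := by rw [mul_pow]; ring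

/-- The hypothesis `hZ` of `chain` from an inequality for one node. -/
theorem hZ_of_node (K0 : Finset ι) (L h r D' z κ : ℕ) (hr : 0 < r) (hd : Fintype.card δ = r * D') (hz : 0 < z)
    (hκ1 : 1 ≤ κ) (hκ : κ ≤ K0.card)
    (hnode : 16 * (1 + Fintype.card δ * Fintype.card F) * Fintype.card F ^ D' * L ^ Fintype.card δ * z ≤
      (h * Fintype.card F) ^ Fintype.card δ) :
    4 * ((Sm (δ := δ) (F := F) K0 r).card + 1) * L ^ (Fintype.card δ * K0.card) * z ^ κ ≤
      (h * Fintype.card F) ^ (Fintype.card δ * K0.card) := by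
  have h1 := card_Sm (δ := δ) (F := F) K0 r D' hr hd
  set d := Fintype.card δ with hd'
  set q := Fintype.card F with hq
  set k := K0.card with hk
  have hq0 : 0 < q := Fintype.card_pos
  have hB : 1 ≤ (2 * (1 + d * q)) ^ k * q ^ (D' * k) :=
    Nat.mul_pos (Nat.pow_pos (by omega)) (Nat.pow_pos hq0)
  have h8 : 8 ≤ 8 ^ k := by
    calc 8 = 8 ^ 1 := by norm_num
      _ ≤ 8 ^ k := Nat.pow_le_pow_right (by norm_num) (by omega)
  calc 4 * ((Sm (δ := δ) (F := F) K0 r).card + 1) * L ^ (d * k) * z ^ κ ≤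
      (8 * ((2 * (1 + d * q)) ^ k * q ^ (D' * k))) * L ^ (d * k) * z ^ k := by
        refine Nat.mul_le_mul (Nat.mul_le_mul_right _ (by omega)) (Nat.pow_le_pow_right hz hκ)
    _ ≤ (8 ^ k * ((2 * (1 + d * q)) ^ k * q ^ (D' * k))) * L ^ (d * k) * z ^ k := by
        refine Nat.mul_le_mul_right _ (Nat.mul_le_mul_right _ (Nat.mul_le_mul_right _ h8))
    _ = (16 * (1 + d * q) * q ^ D' * L ^ d * z) ^ k := by
        rw [pow_mul, pow_mul, show (16 : ℕ) = 8 * 2 by norm_num]
        simp only [mul_pow]
        ring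
    _ ≤ ((h * q) ^ d) ^ k := Nat.pow_le_pow_left hnode k
    _ = _ := by rw [← pow_mul]

end

/-- `16 (1 + 48 D) ≤ 2 ^ D` for `D ≥ 14`. -/
theorem pow_ge (D : ℕ) (hD : 14 ≤ D) : 16 * (1 + 24 * D * 2) ≤ 2 ^ D := by
  induction D, hD using Nat.le_induction with
  | base => norm_num
  | succ n hn ih =>
    rw [pow_succ]
    omega

/-- The inequality for one node and two letters: `9 L ≤ 16 h`, `d = 24 D`, `D ≥ 14`. -/
theorem node_two (L h D : ℕ) (hL : 9 * L ≤ 16 * h) (hD : 14 ≤ D) :
    16 * (1 + 24 * D * 2) * 2 ^ D * L ^ (24 * D) * 2 ^ (2 * D) ≤ (h * 2) ^ (24 * D) := by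
  have h1 : 9 ^ 24 * L ^ 24 ≤ 8 ^ 24 * (h * 2) ^ 24 := by
    rw [← mul_pow, ← mul_pow]
    exact Nat.pow_le_pow_left (by omega) 24
  have h2 : 16 * L ^ 24 ≤ (h * 2) ^ 24 := by
    have h4 : (16 : ℕ) * 8 ^ 24 ≤ 9 ^ 24 := by norm_num
    refine Nat.le_of_mul_le_mul_left ?_ (show 0 < 8 ^ 24 by norm_num)
    calc 8 ^ 24 * (16 * L ^ 24) = 16 * 8 ^ 24 * L ^ 24 := by ring
      _ ≤ 9 ^ 24 * L ^ 24 := Nat.mul_le_mul_right _ h4
      _ ≤ _ := h1
  calc 16 * (1 + 24 * D * 2) * 2 ^ D * L ^ (24 * D) * 2 ^ (2 * D) ≤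
      2 ^ D * 2 ^ D * L ^ (24 * D) * 2 ^ (2 * D) := by
        refine Nat.mul_le_mul_right _ (Nat.mul_le_mul_right _ (Nat.mul_le_mul_right _ (pow_ge D hD)))
    _ = (16 * L ^ 24) ^ D := by
        rw [mul_pow, ← pow_mul, show (16 : ℕ) = 2 ^ 4 by norm_num, ← pow_mul]
        ring
    _ ≤ ((h * 2) ^ 24) ^ D := Nat.pow_le_pow_left h2 D
    _ = _ := by rw [← pow_mul]

/-- The hypothesis `hZ` of `chain` for two letters: `Z = 2 ^ (2 D κ)`. -/
theorem hZ_two {ι δ F : Type} [Fintype ι] [DecidableEq ι] [Fintype δ] [DecidableEq δ] [AddCommGroup F] [Fintype F]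
    [DecidableEq F] (hF : Fintype.card F = 2) (K0 : Finset ι) (L h D κ : ℕ) (hL : 9 * L ≤ 16 * h) (hD : 14 ≤ D)
    (hd : Fintype.card δ = 24 * D) (hκ1 : 1 ≤ κ) (hκ : κ ≤ K0.card) :
    4 * ((Sm (δ := δ) (F := F) K0 24).card + 1) * L ^ (Fintype.card δ * K0.card) * 2 ^ (2 * D * κ) ≤
      (h * Fintype.card F) ^ (Fintype.card δ * K0.card) := by
  rw [pow_mul 2 (2 * D) κ]
  refine hZ_of_node K0 L h 24 D (2 ^ (2 * D)) κ (by norm_num) hd (by positivity) hκ1 hκ ?_
  rw [hF, hd]
  exact node_two L h D hL hD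

end Pool.Agent.Helper89.NK
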